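import Pool.Agent.H.MP_ae9099_mp.B

namespace Pool.Agent.H.MP_ae9099_mp

open Finset Filter Topology ComplexConjugate

variable {V : Type} [DecidableEq V] {τ : RTree V} {ν : V → ℝ} {t : V → V → ℂ} {w : V → ℝ}

noncomputable def opL (τ : RTree V) (t : V → V → ℂ) (w : V → ℝ) (z : ℂ) : (V → ℂ) →ₗ[ℂ] (V → ℂ) where
  toFun φ y := τ.op t w φ y - z * φ y
  map_add' φ ψ := by
    funext y
    simp only [RTree.op, Pi.add_apply, mul_add, Finset.sum_add_distrib]
    split_ifs <;> ring
  map_smul' c φ := by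
    funext y
    have : ∀ u, t y u * (c * φ u) = c * (t y u * φ u) := fun u => by ring
    simp only [RTree.op, Pi.smul_apply, smul_eq_mul, RingHom.id_apply, this, ← Finset.mul_sum]
    split_ifs <;> ring

noncomputable def extL (s : Finset V) : (s → ℂ) →ₗ[ℂ] (V → ℂ) where
  toFun f y := if h : y ∈ s then f ⟨y, h⟩ else 0
  map_add' f g := by
    funext y
    simp only [Pi.add_apply]
    split_ifs <;> simp
  map_smul' c f := by
    funext y
    simp only [Pi.smul_apply, RingHom.id_apply]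
    split_ifs <;> simp

theorem ext_sol (s : Finset V) (z : ℂ) (x : V) (c : ℂ) (f : s → ℂ)
    (h : ∀ y : s, opL τ t w z (extL s f) y = if (y : V) = x then c else 0) :
    τ.Sol ν t w (s : Set V) z x c (extL s f) := by
  have h0 : ∀ y, y ∉ s → extL s f y = 0 := fun y hy => dif_neg hy
  refine ⟨fun y hy => h0 y hy, ?_, fun y hy => h ⟨y, hy⟩⟩
  exact summable_of_ne_finset_zero (s := s) fun y hy => by rw [h0 y hy]; simp

theorem fin_ex (G : Good τ ν t) {z : ℂ} (hz : 0 < z.im) (s : Finset V) (x : V) :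
    ∃ φ, τ.Sol ν t w (s : Set V) z x 1 φ := by
  set L : (s → ℂ) →ₗ[ℂ] (s → ℂ) := (LinearMap.funLeft ℂ ℂ Subtype.val).comp ((opL τ t w z).comp (extL s)) with hL
  have hinj : Function.Injective L := by
    rw [injective_iff_map_eq_zero]
    intro f hf
    have h1 : τ.Sol ν t w (s : Set V) z x 0 (extL s f) := ext_sol s z x 0 f fun y => by
      rw [ite_self]; exact congrFun hf y
    funext y
    have h2 := sol_zero G hz h1 y
    have h3 : extL s f y = f y := dif_pos y.2
    rw [← h3, h2]; rfl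
  obtain ⟨f, hf⟩ := LinearMap.injective_iff_surjective.1 hinj fun y => if (y : V) = x then 1 else 0
  exact ⟨_, ext_sol s z x 1 f fun y => congrFun hf y⟩

theorem sol_bound (G : Good τ ν t) {U z x φ} (hz : 0 < z.im) (h : τ.Sol ν t w U z x 1 φ) (F : Finset V) :
    ∑ y ∈ F, ν y * ‖φ y‖ ^ 2 ≤ ν x * (z.im)⁻¹ * (z.im)⁻¹ := by
  have h1 := green G h
  have h2 := sol_im G hz h
  have h3 : (φ x).im ≤ ‖φ x‖ := (le_abs_self _).trans (Complex.abs_im_le_norm _)
  have h4 : ‖φ x‖ ≤ (z.im)⁻¹ := by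
    rw [← one_div, le_div_iff₀ hz]
    rcases (norm_nonneg (φ x)).eq_or_lt with h0 | h0
    · rw [← h0]; simp
    · nlinarith
  simp only [mul_one, Complex.conj_im] at h1
  have h5 := h.2.1.sum_le_tsum F fun u _ => mul_nonneg (G.pos u).le (sq_nonneg _)
  refine h5.trans ?_
  rw [← div_eq_mul_inv, le_div_iff₀ hz]
  have := mul_le_mul_of_nonneg_left (h3.trans h4) (G.pos x).le
  linarith

open Classical in
theorem sol_ex (G : Good τ ν t) {z : ℂ} (hz : 0 < z.im) (U : Set V) (x : V) :
    ∃ φ, τ.Sol ν t w U z x 1 φ := by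
  choose φ hφ using fun s : Finset V => fin_ex (w := w) G hz (s.filter (· ∈ U)) x
  set K := ν x * (z.im)⁻¹ * (z.im)⁻¹
  set 𝓤 : Ultrafilter (Finset V) := Ultrafilter.of atTop
  have hU : (𝓤 : Filter (Finset V)) ≤ atTop := Ultrafilter.of_le _
  have hl : ∀ y, ∃ c, Tendsto (fun s => φ s y) 𝓤 (𝓝 c) := by
    intro y
    obtain ⟨c, -, hc⟩ := (isCompact_closedBall (0 : ℂ) (1 + K / ν y)).ultrafilter_le_nhds (𝓤.map fun s => φ s y) (by
      rw [Filter.le_principal_iff, Ultrafilter.coe_map, Filter.mem_map]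
      refine Filter.univ_mem' fun s => ?_
      have h1 := sol_bound G hz (hφ s) {y}
      rw [Finset.sum_singleton] at h1
      have h2 : ‖φ s y‖ ^ 2 ≤ K / ν y := by rw [le_div_iff₀ (G.pos y)]; linarith
      simp only [Set.mem_preimage, mem_closedBall_zero_iff]
      nlinarith [sq_nonneg (‖φ s y‖ - 1), sq_nonneg ‖φ s y‖])
    exact ⟨c, hc⟩
  choose ψ hψ using hl
  refine ⟨ψ, fun y hy => ?_, ?_, fun y hy => ?_⟩
  · have := hψ y
    have e : ∀ s, φ s y = 0 := fun s => (hφ s).1 y fun h => hy (Finset.mem_filter.1 h).2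
    simp only [e] at this
    exact tendsto_nhds_unique this tendsto_const_nhds
  · refine summable_of_sum_le (c := K) (fun y => mul_nonneg (G.pos y).le (sq_nonneg _)) fun F => ?_
    exact le_of_tendsto' (tendsto_finset_sum F fun y _ => ((hψ y).norm.pow 2).const_mul (ν y))
      fun s => sol_bound G hz (hφ s) F
  · have h1 : Tendsto (fun s => τ.op t w (φ s) y - z * φ s y) 𝓤 (𝓝 (τ.op t w ψ y - z * ψ y)) := by
      unfold RTree.op
      refine (((tendsto_finset_sum _ fun u _ => (hψ u).const_mul _).add ?_).add ((hψ y).const_mul _)).sub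
        ((hψ y).const_mul _)
      split_ifs
      · exact tendsto_const_nhds
      · exact (hψ _).const_mul _
    refine tendsto_nhds_unique h1 (tendsto_const_nhds.congr' ?_)
    filter_upwards [hU (eventually_ge_atTop {y})] with s hs
    refine ((hφ s).2.2 y ?_).symm
    exact Finset.mem_filter.2 ⟨hs (Finset.mem_singleton_self y), hy⟩

theorem sol_exu (G : Good τ ν t) {z : ℂ} (hz : 0 < z.im) (U : Set V) (x : V) :
    ∃! φ, τ.Sol ν t w U z x 1 φ := by
  obtain ⟨φ, h⟩ := sol_ex (w := w) G hz U x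
  exact ⟨φ, h, fun ψ hψ => funext fun y => by rw [sol_smul G hz hψ h, one_mul]⟩

/-- the diagonal Green function of the operator on l2(U, ν): the value at x of the l2 solution of
(T_U - z) φ = indicator of x -/
noncomputable def RTree.green (τ : RTree V) (ν : V → ℝ) (t : V → V → ℂ) (w : V → ℝ) (U : Set V) (x : V)
    (z : ℂ) : ℂ := Classical.epsilon (τ.Sol ν t w U z x 1) x

theorem eps_sol (G : Good τ ν t) {z : ℂ} (hz : 0 < z.im) (U : Set V) (x : V) :
    τ.Sol ν t w U z x 1 (Classical.epsilon (τ.Sol ν t w U z x 1)) :=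
  Classical.epsilon_spec (sol_ex G hz U x)

end Pool.Agent.H.MP_ae9099_mp
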