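import Mathlib

namespace Pool.Agent.H.MP_ae9099_mp

open Finset Filter Topology

variable {A : Type} [Fintype A] [DecidableEq A]

/-- admissible solutions of the finite system at a point of the closed half plane -/
def Adm (c : A → A → ℝ) (b : A → ℝ) (z : ℂ) (g : A → ℂ) (v : A → ℝ) : Prop :=
  (∀ j, 0 ≤ (g j).im) ∧ (∀ j, g j * (z - b j + ∑ k, (c j k : ℂ) * g k) = -1) ∧
  (∀ j, 0 ≤ v j) ∧ ∑ j, v j = 1 ∧ ∀ j, ‖g j‖ ^ 2 * ∑ k, c j k * v k ≤ v j

theorem amgm (p q d C v w t : ℝ) (hp : 0 ≤ p) (hq : 0 ≤ q) (hC : 0 ≤ C) (hv : 0 ≤ v) (hw : 0 ≤ w)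
    (ht : 0 < t) (hd : d ≤ C * √(v * w)) :
    p * q * d ≤ C / 2 * (t * (p ^ 2 * v) + t⁻¹ * (q ^ 2 * w)) := by
  have h1 : p * q * √(v * w) ≤ 1 / 2 * (t * (p ^ 2 * v) + t⁻¹ * (q ^ 2 * w)) := by
    rw [Real.sqrt_mul hv]
    obtain ⟨s, hs, rfl⟩ : ∃ s, 0 < s ∧ t = s ^ 2 := ⟨√t, Real.sqrt_pos.2 ht, (Real.sq_sqrt ht.le).symm⟩
    have e1 := Real.sq_sqrt hv
    have e2 := Real.sq_sqrt hw
    have h := sq_nonneg (s * p * √v - s⁻¹ * q * √w)
    have e3 : s * s⁻¹ = 1 := mul_inv_cancel₀ hs.ne'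
    have e4 : (s * p * √v - s⁻¹ * q * √w) ^ 2 = s ^ 2 * (p ^ 2 * √v ^ 2) + (s ^ 2)⁻¹ * (q ^ 2 * √w ^ 2)
        - 2 * (s * s⁻¹) * (p * q * (√v * √w)) := by ring
    rw [e4, e1, e2, e3] at h
    linarith
  calc p * q * d ≤ p * q * (C * √(v * w)) := mul_le_mul_of_nonneg_left hd (mul_nonneg hp hq)
    _ = C * (p * q * √(v * w)) := by ring
    _ ≤ C * (1 / 2 * (t * (p ^ 2 * v) + t⁻¹ * (q ^ 2 * w))) := mul_le_mul_of_nonneg_left h1 hC
    _ = _ := by ring

theorem tfacts (v w : ℝ) (hv : 0 < v) (hw : 0 < w) :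
    ∃ t, 0 < t ∧ t * v = √(v * w) ∧ t⁻¹ * w = √(v * w) := by
  have hs : 0 < √(v * w) := Real.sqrt_pos.2 (mul_pos hv hw)
  have e := Real.mul_self_sqrt (mul_pos hv hw).le
  refine ⟨√(v * w) / v, div_pos hs hv, by field_simp, ?_⟩
  rw [inv_div]; field_simp; nlinarith

theorem adm_pos {c : A → A → ℝ} {b : A → ℝ} (hc : ∀ j k, 0 ≤ c j k)
    (hirr : ∀ j k, Relation.ReflTransGen (fun j k => 0 < c j k) j k) {z g v} (h : Adm c b z g v) :
    ∀ j, 0 < v j := by
  obtain ⟨-, h2, h3, h4, h5⟩ := h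
  have : ∃ k, 0 < v k := by
    by_contra hn
    push Not at hn
    have : ∑ j, v j ≤ 0 := Finset.sum_nonpos fun j _ => hn j
    linarith
  obtain ⟨k, hk⟩ := this
  intro j
  induction hirr j k using Relation.ReflTransGen.head_induction_on with
  | refl => exact hk
  | @head a a' haa _ ih =>
    have hg : g a ≠ 0 := by
      intro h0
      have := h2 a
      rw [h0] at this
      simp at this
    have h6 : c a a' * v a' ≤ ∑ k, c a k * v k :=
      Finset.single_le_sum (f := fun k => c a k * v k) (fun k _ => mul_nonneg (hc a k) (h3 k)) (mem_univ a')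
    have h7 : 0 < ‖g a‖ ^ 2 * ∑ k, c a k * v k :=
      mul_pos (pow_pos (norm_pos_iff.2 hg) 2) (lt_of_lt_of_le (mul_pos haa ih) h6)
    exact lt_of_lt_of_le h7 (h5 a)

theorem adm_bound {c : A → A → ℝ} {b : A → ℝ} (hc : ∀ j k, 0 ≤ c j k) (hd : ∀ j, 0 < c j j)
    (hirr : ∀ j k, Relation.ReflTransGen (fun j k => 0 < c j k) j k) {z g v} (h : Adm c b z g v) :
    ∀ j, ‖g j‖ ≤ 1 + (c j j)⁻¹ := by
  intro j
  have hp := adm_pos hc hirr h
  obtain ⟨-, -, h3, -, h5⟩ := h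
  have h6 : c j j * v j ≤ ∑ k, c j k * v k :=
    Finset.single_le_sum (f := fun k => c j k * v k) (fun k _ => mul_nonneg (hc j k) (h3 k)) (mem_univ j)
  have h7 : ‖g j‖ ^ 2 * (c j j * v j) ≤ v j := le_trans (mul_le_mul_of_nonneg_left h6 (sq_nonneg _)) (h5 j)
  have h8 : ‖g j‖ ^ 2 * c j j ≤ 1 := by
    have := hp j
    by_contra hn
    push Not at hn
    nlinarith
  have h9 : ‖g j‖ ^ 2 ≤ (c j j)⁻¹ := by
    rw [← one_div, le_div_iff₀ (hd j)]; exact h8
  nlinarith [sq_nonneg (‖g j‖ - 1), inv_pos.2 (hd j), norm_nonneg (g j)]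

theorem adm_unique [Nonempty A] {c : A → A → ℝ} {b : A → ℝ} (hc : ∀ j k, 0 ≤ c j k) (hd : ∀ j, 0 < c j j)
    (hirr : ∀ j k, Relation.ReflTransGen (fun j k => 0 < c j k) j k) {z g v h w}
    (hg : Adm c b z g v) (hh : Adm c b z h w) : g = h := by
  have hv := adm_pos hc hirr hg
  have hw := adm_pos hc hirr hh
  obtain ⟨g1, g2, -, -, g5⟩ := hg
  obtain ⟨h1, h2, -, -, h5⟩ := hh
  have hs : ∀ k, 0 < √(v k * w k) := fun k => Real.sqrt_pos.2 (mul_pos (hv k) (hw k))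
  obtain ⟨j, -, hj⟩ := Finset.exists_max_image univ (fun k => ‖g k - h k‖ / √(v k * w k)) univ_nonempty
  set C := ‖g j - h j‖ / √(v j * w j) with hC
  have hC0 : 0 ≤ C := div_nonneg (norm_nonneg _) (hs j).le
  have hk : ∀ k, ‖g k - h k‖ ≤ C * √(v k * w k) := fun k => by
    have := hj k (mem_univ k)
    rwa [div_le_iff₀ (hs k)] at this
  have hjj : ‖g j - h j‖ = C * √(v j * w j) := by rw [hC]; field_simp [(hs j).ne']
  suffices hz : C = 0 by
    funext k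
    have := hk k
    rw [hz, zero_mul] at this
    exact sub_eq_zero.1 (norm_le_zero_iff.1 this)
  by_contra hne
  have hCp : 0 < C := lt_of_le_of_ne hC0 (Ne.symm hne)
  obtain ⟨t, ht, t1, t2⟩ := tfacts (v j) (w j) (hv j) (hw j)
  have e1 : (g j - h j) * (1 - g j * h j * c j j) = ∑ k ∈ univ.erase j, g j * h j * (c j k * (g k - h k)) := by
    have a1 := g2 j
    have a2 := h2 j
    rw [← Finset.add_sum_erase _ _ (mem_univ j)] at a1 a2
    rw [← Finset.mul_sum]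
    simp only [mul_sub, Finset.sum_sub_distrib]
    linear_combination (-(h j)) * a1 + g j * a2
  have e2 : ‖(g j - h j) * (1 - g j * h j * c j j)‖ ≤
      ∑ k ∈ univ.erase j, c j k * (C / 2 * (t * (‖g j‖ ^ 2 * v k) + t⁻¹ * (‖h j‖ ^ 2 * w k))) := by
    rw [e1]
    refine (norm_sum_le _ _).trans (Finset.sum_le_sum fun k _ => ?_)
    rw [norm_mul, norm_mul, norm_mul, Complex.norm_real, Real.norm_of_nonneg (hc j k)]
    have := amgm ‖g j‖ ‖h j‖ _ C (v k) (w k) t (norm_nonneg _) (norm_nonneg _) hC0 (hv k).le (hw k).le ht (hk k)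
    nlinarith [hc j k]
  have e3 : ∑ k ∈ univ.erase j, c j k * (C / 2 * (t * (‖g j‖ ^ 2 * v k) + t⁻¹ * (‖h j‖ ^ 2 * w k))) =
      C / 2 * (t * (‖g j‖ ^ 2 * ∑ k, c j k * v k) + t⁻¹ * (‖h j‖ ^ 2 * ∑ k, c j k * w k))
        - c j j * (C / 2 * (‖g j‖ ^ 2 * (t * v j) + ‖h j‖ ^ 2 * (t⁻¹ * w j))) := by
    rw [← Finset.add_sum_erase _ (fun k => c j k * v k) (mem_univ j),
      ← Finset.add_sum_erase _ (fun k => c j k * w k) (mem_univ j)]
    have : ∀ k, c j k * (C / 2 * (t * (‖g j‖ ^ 2 * v k) + t⁻¹ * (‖h j‖ ^ 2 * w k))) =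
      (C / 2 * t * ‖g j‖ ^ 2) * (c j k * v k) + (C / 2 * t⁻¹ * ‖h j‖ ^ 2) * (c j k * w k) := fun k => by ring
    simp only [this, Finset.sum_add_distrib, ← Finset.mul_sum]
    ring
  have e4 : t * (‖g j‖ ^ 2 * ∑ k, c j k * v k) ≤ √(v j * w j) := by
    rw [← t1]; exact mul_le_mul_of_nonneg_left (g5 j) ht.le
  have e5 : t⁻¹ * (‖h j‖ ^ 2 * ∑ k, c j k * w k) ≤ √(v j * w j) := by
    rw [← t2]; exact mul_le_mul_of_nonneg_left (h5 j) (inv_pos.2 ht).le
  rw [e3, t1, t2, norm_mul, hjj] at e2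
  have e6 : (1 - g j * h j * c j j).re ≤ ‖1 - g j * h j * c j j‖ := Complex.re_le_norm _
  have e7 : C * √(v j * w j) * ‖1 - g j * h j * c j j‖ ≤
      C * √(v j * w j) * (1 - c j j * (‖g j‖ ^ 2 + ‖h j‖ ^ 2) / 2) := by nlinarith
  have e8 := le_of_mul_le_mul_left e7 (mul_pos hCp (hs j))
  have e9 := e6.trans e8
  rw [Complex.sq_norm, Complex.sq_norm, Complex.normSq_apply, Complex.normSq_apply] at e9
  simp only [Complex.sub_re, Complex.one_re, Complex.mul_re, Complex.ofReal_re, Complex.ofReal_im, mul_zero,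
    sub_zero] at e9
  have e10 : c j j * (((g j).re - (h j).re) ^ 2 + ((g j).im + (h j).im) ^ 2) ≤ 0 := by nlinarith
  have e11 : ((g j).re - (h j).re) ^ 2 + ((g j).im + (h j).im) ^ 2 ≤ 0 := by
    by_contra hn
    push Not at hn
    have := mul_pos (hd j) hn
    linarith
  have r1 : (g j).re = (h j).re := by nlinarith [sq_nonneg ((g j).re - (h j).re), sq_nonneg ((g j).im + (h j).im)]
  have r2 : (g j).im + (h j).im = 0 := by
    nlinarith [sq_nonneg ((g j).re - (h j).re), sq_nonneg ((g j).im + (h j).im)]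
  have r3 : g j = h j := Complex.ext r1 (by linarith [g1 j, h1 j])
  rw [r3, sub_self, norm_zero] at hjj
  have := mul_pos hCp (hs j)
  linarith

/-- sequential closedness with compactness -/
theorem adm_seq {c : A → A → ℝ} {b : A → ℝ} (hc : ∀ j k, 0 ≤ c j k) (hd : ∀ j, 0 < c j j)
    (hirr : ∀ j k, Relation.ReflTransGen (fun j k => 0 < c j k) j k)
    (zs : ℕ → ℂ) (gs : ℕ → A → ℂ) (vs : ℕ → A → ℝ) (z : ℂ) (hz : Tendsto zs atTop (𝓝 z))
    (h : ∀ n, Adm c b (zs n) (gs n) (vs n)) :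
    ∃ g v, ∃ φ : ℕ → ℕ, StrictMono φ ∧ Tendsto (fun n => gs (φ n)) atTop (𝓝 g) ∧ Adm c b z g v := by
  have hb : Bornology.IsBounded (Metric.closedBall (0 : (A → ℂ) × (A → ℝ)) (1 + ∑ j, (c j j)⁻¹)) :=
    Metric.isBounded_closedBall
  have hS : 0 ≤ ∑ j, (c j j)⁻¹ := Finset.sum_nonneg fun j _ => (inv_pos.2 (hd j)).le
  have hm : ∀ n, (gs n, vs n) ∈ Metric.closedBall (0 : (A → ℂ) × (A → ℝ)) (1 + ∑ j, (c j j)⁻¹) := by
    intro n
    rw [mem_closedBall_zero_iff, Prod.norm_def, max_le_iff]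
    constructor
    · refine (pi_norm_le_iff_of_nonneg (by linarith)).2 fun j => (adm_bound hc hd hirr (h n) j).trans ?_
      have := Finset.single_le_sum (f := fun j => (c j j)⁻¹) (fun j _ => (inv_pos.2 (hd j)).le) (mem_univ j)
      linarith
    · refine (pi_norm_le_iff_of_nonneg (by linarith)).2 fun j => ?_
      obtain ⟨-, -, h3, h4, -⟩ := h n
      have := Finset.single_le_sum (f := vs n) (fun j _ => h3 j) (mem_univ j)
      rw [Real.norm_of_nonneg (h3 j)]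
      linarith
  obtain ⟨p, -, φ, hφ, hp⟩ := tendsto_subseq_of_bounded hb hm
  have hg : Tendsto (fun n => gs (φ n)) atTop (𝓝 p.1) := (continuous_fst.tendsto p).comp hp
  have hv : Tendsto (fun n => vs (φ n)) atTop (𝓝 p.2) := (continuous_snd.tendsto p).comp hp
  have hz' : Tendsto (fun n => zs (φ n)) atTop (𝓝 z) := hz.comp hφ.tendsto_atTop
  have hgj := tendsto_pi_nhds.1 hg
  have hvj := tendsto_pi_nhds.1 hv
  refine ⟨p.1, p.2, φ, hφ, hg, fun j => ?_, fun j => ?_, fun j => ?_, ?_, fun j => ?_⟩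
  · exact ge_of_tendsto' ((Complex.continuous_im.tendsto _).comp (hgj j)) fun n => (h (φ n)).1 j
  · have := (hgj j).mul ((hz'.sub_const (b j : ℂ)).add
      (tendsto_finset_sum univ fun k _ => (hgj k).const_mul (c j k : ℂ)))
    simp only [fun n => (h (φ n)).2.1 j] at this
    exact tendsto_nhds_unique this tendsto_const_nhds
  · exact ge_of_tendsto' (hvj j) fun n => (h (φ n)).2.2.1 j
  · have := tendsto_finset_sum univ fun k _ => hvj k
    simp only [fun n => (h (φ n)).2.2.2.1] at this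
    exact tendsto_nhds_unique this tendsto_const_nhds
  · exact le_of_tendsto_of_tendsto' (((hgj j).norm.pow 2).mul
      (tendsto_finset_sum univ fun k _ => (hvj k).const_mul (c j k))) (hvj j) fun n => (h (φ n)).2.2.2.2 j

theorem ext_cont [Nonempty A] {c : A → A → ℝ} {b : A → ℝ} (hc : ∀ j k, 0 ≤ c j k) (hd : ∀ j, 0 < c j j)
    (hirr : ∀ j k, Relation.ReflTransGen (fun j k => 0 < c j k) j k)
    (g : ℂ → A → ℂ) (hg : ∀ z, 0 < z.im → ∃ v, Adm c b z (g z) v) :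
    ∃ F : ℂ → A → ℂ, ContinuousOn F {z | 0 ≤ z.im} ∧ ∀ z, 0 < z.im → F z = g z := by
  have hex : ∀ z : ℂ, ∃ f, 0 ≤ z.im → ∃ v, Adm c b z f v := by
    intro z
    by_cases hz : 0 ≤ z.im
    · have hp : ∀ n : ℕ, 0 < (z + ((1 / ((n : ℝ) + 1) : ℝ) : ℂ) * Complex.I).im := fun n => by
        have : (0 : ℝ) < 1 / ((n : ℝ) + 1) := by positivity
        simp only [Complex.add_im, Complex.mul_im, Complex.ofReal_re, Complex.I_im, Complex.ofReal_im,
          Complex.I_re]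
        linarith
      choose vs hvs using fun n => hg _ (hp n)
      have ht : Tendsto (fun n : ℕ => z + ((1 / ((n : ℝ) + 1) : ℝ) : ℂ) * Complex.I) atTop (𝓝 z) := by
        have := (((Complex.continuous_ofReal.tendsto 0).comp
          tendsto_one_div_add_atTop_nhds_zero_nat).mul_const Complex.I).const_add z
        simpa using this
      obtain ⟨f, v, -, -, -, hf⟩ := adm_seq hc hd hirr _ _ vs z ht hvs
      exact ⟨f, fun _ => ⟨v, hf⟩⟩
    · exact ⟨0, fun h => absurd h hz⟩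
  choose F hF using hex
  refine ⟨F, fun z hz => ?_, fun z hz => ?_⟩
  · refine tendsto_of_subseq_tendsto fun ns hns => ?_
    rw [tendsto_nhdsWithin_iff] at hns
    obtain ⟨N, hN⟩ := eventually_atTop.1 hns.2
    choose vs hvs using fun n => hF (ns (n + N)) (hN _ (Nat.le_add_left _ _))
    obtain ⟨f, v, φ, -, h1, h2⟩ := adm_seq hc hd hirr _ _ vs z (hns.1.comp (tendsto_add_atTop_nat N)) hvs
    obtain ⟨w, hw⟩ := hF z hz
    rw [adm_unique hc hd hirr h2 hw] at h1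
    exact ⟨fun n => φ n + N, h1⟩
  · obtain ⟨v, hv⟩ := hF z hz.le
    obtain ⟨w, hw⟩ := hg z hz
    exact adm_unique hc hd hirr hv hw

end Pool.Agent.H.MP_ae9099_mp
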