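import Mathlib

namespace Pool.Agent.H.MP_ae9099_mp

open Finset Filter Topology ComplexConjugate

/-- A locally finite rooted tree: root, parent map, finite sets of children. -/
structure RTree (V : Type) where
  root : V
  par : V → V
  ch : V → Finset V
  mem_ch : ∀ u y, u ∈ ch y ↔ u ≠ root ∧ par u = y
  par_root : par root = root
  reach : ∀ y, ∃ n, par^[n] y = root

variable {V : Type} [DecidableEq V]

/-- adjacency: one vertex is a child of the other -/
def RTree.Adj (τ : RTree V) (x y : V) : Prop := x ∈ τ.ch y ∨ y ∈ τ.ch x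

/-- the vertex x with all its descendants -/
def RTree.desc (τ : RTree V) (x : V) : Set V := {y | ∃ n, τ.par^[n] y = x}

/-- the formal action: sum over the children, plus the parent (if any), plus the potential -/
noncomputable def RTree.op (τ : RTree V) (t : V → V → ℂ) (w : V → ℝ) (φ : V → ℂ) (x : V) : ℂ :=
  ∑ y ∈ τ.ch x, t x y * φ y + (if x = τ.root then 0 else t x (τ.par x) * φ (τ.par x)) + w x * φ x

/-- φ lies in l2(U, ν) (extended by zero) and solves (T_U - z) φ = s * indicator of x -/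
def RTree.Sol (τ : RTree V) (ν : V → ℝ) (t : V → V → ℂ) (w : V → ℝ) (U : Set V) (z : ℂ) (x : V) (s : ℂ)
    (φ : V → ℂ) : Prop :=
  (∀ y, y ∉ U → φ y = 0) ∧ Summable (fun y => ν y * ‖φ y‖ ^ 2) ∧
    ∀ y ∈ U, τ.op t w φ y - z * φ y = if y = x then s else 0

structure Good (τ : RTree V) (ν : V → ℝ) (t : V → V → ℂ) : Prop where
  pos : ∀ x, 0 < ν x
  sym : ∀ x y, t x y * ν x = conj (t y x) * ν y
  bd : ∃ K : ℝ, ∀ y, ∀ u ∈ τ.ch y, ‖t y u‖ ^ 2 * ν y ≤ K * ν u
  deg : ∃ D : ℕ, ∀ y, (τ.ch y).card ≤ D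

variable {τ : RTree V} {ν : V → ℝ} {t : V → V → ℂ} {w : V → ℝ}

theorem green (G : Good τ ν t) {U z x s φ} (h : τ.Sol ν t w U z x s φ) :
    z.im * ∑' y, ν y * ‖φ y‖ ^ 2 = -(ν x * (conj (φ x) * s).im) := by
  obtain ⟨h0, hs, he⟩ := h
  obtain ⟨K, hK⟩ := G.bd
  obtain ⟨D, hD⟩ := G.deg
  set N : V → ℝ := fun y => ν y * ‖φ y‖ ^ 2 with hN
  have hN0 : ∀ y, 0 ≤ N y := fun y => mul_nonneg (G.pos y).le (sq_nonneg _)
  set I : V → ℝ := fun u => if u = τ.root then 0 else
    ((ν (τ.par u) : ℂ) * conj (φ (τ.par u)) * (t (τ.par u) u * φ u)).im with hI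
  have hP : Summable fun u => if u = τ.root then 0 else N (τ.par u) := by
    refine summable_of_sum_le (c := D * ∑' y, N y) (fun u => ?_) fun s => ?_
    · dsimp only; split_ifs
      · exact le_rfl
      · exact hN0 _
    · have e : ∑ u ∈ s, (if u = τ.root then 0 else N (τ.par u)) = ∑ u ∈ s.filter (· ≠ τ.root), N (τ.par u) := by
        rw [Finset.sum_filter]
        exact Finset.sum_congr rfl fun u _ => by by_cases hu : u = τ.root <;> simp [hu]
      rw [e, Finset.sum_comp N τ.par]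
      refine le_trans (Finset.sum_le_sum (g := fun y => (D : ℝ) * N y) fun y _ => ?_) ?_
      · rw [nsmul_eq_mul]
        refine mul_le_mul_of_nonneg_right ?_ (hN0 y)
        refine Nat.cast_le.2 (le_trans (Finset.card_le_card fun u hu => ?_) (hD y))
        simp only [Finset.mem_filter] at hu
        exact (τ.mem_ch u y).2 ⟨hu.1.2, hu.2⟩
      · rw [← Finset.mul_sum]
        exact mul_le_mul_of_nonneg_left (hs.sum_le_tsum _ fun y _ => hN0 y) (Nat.cast_nonneg D)
  have hIs : Summable I := by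
    refine Summable.of_norm_bounded (hP.add (hs.mul_left |K|)) fun u => ?_
    by_cases hu : u = τ.root
    · simp only [hI, hu, if_true, norm_zero, zero_add]
      exact mul_nonneg (abs_nonneg K) (hN0 _)
    · simp only [hI, hu, if_false]
      refine (Complex.abs_im_le_norm _).trans ?_
      have h1 := hK (τ.par u) u ((τ.mem_ch _ _).2 ⟨hu, rfl⟩)
      have h2 : K * ν u ≤ |K| * ν u := mul_le_mul_of_nonneg_right (le_abs_self K) (G.pos u).le
      rw [norm_mul, norm_mul, norm_mul, Complex.norm_real, Real.norm_of_nonneg (G.pos _).le, Complex.norm_conj]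
      have h3 := mul_le_mul_of_nonneg_right (h1.trans h2) (sq_nonneg ‖φ u‖)
      have h4 := mul_nonneg (G.pos (τ.par u)).le (sq_nonneg (‖φ (τ.par u)‖ - ‖t (τ.par u) u‖ * ‖φ u‖))
      have h5 := hN0 (τ.par u)
      have h6 := mul_nonneg (abs_nonneg K) (hN0 u)
      simp only [hN] at h5 h6 ⊢
      nlinarith
  have h1 := hIs.hasSum.tsum_fiberwise τ.par
  have h2 : ∀ y, ∑' b : τ.par ⁻¹' {y}, I b = ∑ u ∈ τ.ch y, I u := by
    intro y
    rw [_root_.tsum_subtype, tsum_eq_sum (s := τ.ch y)]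
    · refine Finset.sum_congr rfl fun u hu => Set.indicator_of_mem ?_ _
      exact ((τ.mem_ch _ _).1 hu).2
    · intro u hu
      by_cases hr : u = τ.root
      · have : I u = 0 := by simp [hI, hr]
        rw [Set.indicator_apply_eq_zero]
        exact fun _ => this
      · rw [Set.indicator_apply_eq_zero]
        exact fun h => absurd ((τ.mem_ch _ _).2 ⟨hr, h⟩) hu
  simp only [h2] at h1
  have h3 := (h1.sub hIs.hasSum).sub (hs.hasSum.mul_left z.im)
  have h4 : ∀ y, ∑ u ∈ τ.ch y, I u - I y - z.im * N y = if y = x then ν x * (conj (φ x) * s).im else 0 := by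
    intro y
    have e1 : ∑ u ∈ τ.ch y, I u = ((ν y : ℂ) * conj (φ y) * ∑ u ∈ τ.ch y, t y u * φ u).im := by
      rw [Finset.mul_sum, Complex.im_sum]
      refine Finset.sum_congr rfl fun u hu => ?_
      obtain ⟨a1, a2⟩ := (τ.mem_ch _ _).1 hu
      simp only [hI, a1, if_false, a2]
    have e2 : I y = -((ν y : ℂ) * conj (φ y) *
        (if y = τ.root then 0 else t y (τ.par y) * φ (τ.par y))).im := by
      by_cases hr : y = τ.root
      · simp [hI, hr]
      · simp only [hI, hr, if_false]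
        rw [← Complex.conj_im]
        congr 1
        have := congrArg conj (G.sym y (τ.par y))
        simp only [map_mul, Complex.conj_ofReal, Complex.conj_conj] at this ⊢
        linear_combination (-(φ y * conj (φ (τ.par y)))) * this
    have e3 : z.im * N y = -((ν y : ℂ) * conj (φ y) * (w y * φ y - z * φ y)).im := by
      have : (ν y : ℂ) * conj (φ y) * (w y * φ y - z * φ y) = ((N y : ℝ) : ℂ) * (w y - z) := by
        simp only [hN, Complex.ofReal_mul]
        rw [← Complex.normSq_eq_norm_sq, Complex.normSq_eq_conj_mul_self]; ring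
      rw [this]; simp; ring
    have e4 : ∑ u ∈ τ.ch y, I u - I y - z.im * N y =
        ((ν y : ℂ) * conj (φ y) * (τ.op t w φ y - z * φ y)).im := by
      rw [e1, e2, e3, sub_neg_eq_add, sub_neg_eq_add, ← Complex.add_im, ← Complex.add_im]
      congr 1
      unfold RTree.op; ring
    rw [e4]
    by_cases hy : y ∈ U
    · rw [he y hy]
      by_cases hx : y = x
      · subst hx; simp only [if_true]; rw [mul_assoc, Complex.im_ofReal_mul]
      · simp [hx]
    · by_cases hx : y = x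
      · subst hx; simp [h0 y hy]
      · simp [h0 y hy, hx]
  simp only [h4] at h3
  have h5 := h3.unique (hasSum_ite_eq x _)
  linarith

theorem sq_le2 (a b : ℂ) : ‖a - b‖ ^ 2 ≤ 2 * ‖a‖ ^ 2 + 2 * ‖b‖ ^ 2 := by
  have := norm_sub_le a b
  nlinarith [norm_nonneg (a - b), norm_nonneg a, norm_nonneg b, sq_nonneg (‖a‖ - ‖b‖)]

theorem summ_comb (G : Good τ ν t) {φ ψ : V → ℂ} (c : ℂ) (h1 : Summable fun y => ν y * ‖φ y‖ ^ 2)
    (h2 : Summable fun y => ν y * ‖ψ y‖ ^ 2) : Summable fun y => ν y * ‖φ y - c * ψ y‖ ^ 2 := by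
  refine Summable.of_nonneg_of_le (fun y => mul_nonneg (G.pos y).le (sq_nonneg _)) (fun y => ?_)
    ((h1.mul_left 2).add (h2.mul_left (2 * ‖c‖ ^ 2)))
  have := mul_le_mul_of_nonneg_left (sq_le2 (φ y) (c * ψ y)) (G.pos y).le
  rw [norm_mul] at this
  nlinarith

theorem op_comb (φ ψ : V → ℂ) (c : ℂ) (y : V) :
    τ.op t w (fun u => φ u - c * ψ u) y = τ.op t w φ y - c * τ.op t w ψ y := by
  unfold RTree.op
  have : ∀ u, t y u * (φ u - c * ψ u) = t y u * φ u - c * (t y u * ψ u) := fun u => by ring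
  simp only [this, Finset.sum_sub_distrib, ← Finset.mul_sum]
  split_ifs <;> ring

theorem sol_zero (G : Good τ ν t) {U z x φ} (hz : 0 < z.im) (h : τ.Sol ν t w U z x 0 φ) (y : V) : φ y = 0 := by
  have h1 := green G h
  simp only [mul_zero, Complex.zero_im, neg_zero] at h1
  have h2 : ∑' y, ν y * ‖φ y‖ ^ 2 = 0 := (mul_eq_zero.1 h1).resolve_left hz.ne'
  have h3 := h.2.1.sum_le_tsum {y} fun u _ => mul_nonneg (G.pos u).le (sq_nonneg _)
  rw [h2, Finset.sum_singleton] at h3
  have h4 : ‖φ y‖ ^ 2 ≤ 0 := by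
    by_contra hn
    push Not at hn
    have := mul_pos (G.pos y) hn
    linarith
  exact norm_eq_zero.1 (by nlinarith [norm_nonneg (φ y)])

theorem sol_smul (G : Good τ ν t) {U z x s φ ψ} (hz : 0 < z.im) (h : τ.Sol ν t w U z x s φ)
    (h' : τ.Sol ν t w U z x 1 ψ) (y : V) : φ y = s * ψ y := by
  have : τ.Sol ν t w U z x 0 (fun u => φ u - s * ψ u) := by
    refine ⟨fun u hu => by simp [h.1 u hu, h'.1 u hu], summ_comb G s h.2.1 h'.2.1, fun u hu => ?_⟩
    rw [op_comb]
    have a1 := h.2.2 u hu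
    have a2 := h'.2.2 u hu
    split_ifs at a1 a2 ⊢
    · linear_combination a1 - s * a2
    · linear_combination a1 - s * a2
  exact sub_eq_zero.1 (sol_zero G hz this y)

theorem sol_im (G : Good τ ν t) {U z x φ} (hz : 0 < z.im) (h : τ.Sol ν t w U z x 1 φ) :
    z.im * ‖φ x‖ ^ 2 ≤ (φ x).im := by
  have h1 := green G h
  have h3 := h.2.1.sum_le_tsum {x} fun u _ => mul_nonneg (G.pos u).le (sq_nonneg _)
  rw [Finset.sum_singleton] at h3
  simp only [mul_one, Complex.conj_im] at h1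
  have h4 := mul_le_mul_of_nonneg_left h3 hz.le
  have h5 : ν x * (z.im * ‖φ x‖ ^ 2) ≤ ν x * (φ x).im := by linarith
  exact le_of_mul_le_mul_left h5 (G.pos x)

theorem self_mem (x : V) : x ∈ τ.desc x := ⟨0, rfl⟩

theorem par_not_mem {u : V} (hu : u ≠ τ.root) : τ.par u ∉ τ.desc u := by
  rintro ⟨n, hn⟩
  have h1 : Function.IsPeriodicPt τ.par (n + 1) u := hn
  obtain ⟨m, hm⟩ := τ.reach u
  have h2 : τ.par^[(n + 1) * m] u = u := h1.mul_const m
  have h3 : (n + 1) * m = n * m + m := by ring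
  rw [h3, Function.iterate_add_apply, hm, Function.iterate_fixed τ.par_root] at h2
  exact hu h2.symm

theorem ch_mem {x y u : V} (hy : y ∈ τ.desc x) (hu : u ∈ τ.ch y) : u ∈ τ.desc x := by
  obtain ⟨n, hn⟩ := hy
  exact ⟨n + 1, by rw [Function.iterate_succ_apply, ((τ.mem_ch _ _).1 hu).2, hn]⟩

theorem par_mem {x y : V} (hy : y ∈ τ.desc x) (hne : y ≠ x) : τ.par y ∈ τ.desc x := by
  obtain ⟨n, hn⟩ := hy
  cases n with
  | zero => exact absurd hn hne
  | succ n => exact ⟨n, hn⟩

theorem desc_par {u y : V} (hy : y ∈ τ.desc u) : y ∈ τ.desc (τ.par u) := by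
  obtain ⟨n, hn⟩ := hy
  exact ⟨n + 1, by rw [Function.iterate_succ_apply', hn]⟩

open Classical in
theorem sol_restrict (G : Good τ ν t) {U z x s φ u} (hu : u ≠ τ.root) (hU : τ.desc u ⊆ U)
    (hx : x ∉ τ.desc u) (h : τ.Sol ν t w U z x s φ) :
    τ.Sol ν t w (τ.desc u) z u (-(t u (τ.par u) * φ (τ.par u))) (fun y => if y ∈ τ.desc u then φ y else 0) := by
  refine ⟨fun y hy => if_neg hy, ?_, fun y hy => ?_⟩
  · refine Summable.of_nonneg_of_le (fun y => mul_nonneg (G.pos y).le (sq_nonneg _)) (fun y => ?_) h.2.1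
    dsimp only
    split_ifs
    · exact le_rfl
    · simpa using mul_nonneg (G.pos y).le (sq_nonneg ‖φ y‖)
  · have a := h.2.2 y (hU hy)
    have hyx : y ≠ x := fun e => hx (e ▸ hy)
    rw [if_neg hyx] at a
    unfold RTree.op at a ⊢
    have e1 : ∑ v ∈ τ.ch y, t y v * (if v ∈ τ.desc u then φ v else 0) = ∑ v ∈ τ.ch y, t y v * φ v :=
      Finset.sum_congr rfl fun v hv => by rw [if_pos (ch_mem hy hv)]
    simp only [e1, if_pos hy]
    by_cases hyu : y = u
    · subst hyu
      simp only [if_neg hu, if_neg (par_not_mem hu), if_true] at a ⊢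
      linear_combination a
    · rw [if_neg hyu, if_pos (par_mem hy hyu)]
      exact a

theorem restrict_val (G : Good τ ν t) {U z x s φ u χ} (hz : 0 < z.im) (hu : u ≠ τ.root) (hU : τ.desc u ⊆ U)
    (hx : x ∉ τ.desc u) (h : τ.Sol ν t w U z x s φ) (hχ : τ.Sol ν t w (τ.desc u) z u 1 χ) :
    φ u = -(t u (τ.par u) * φ (τ.par u)) * χ u := by
  have := sol_smul G hz (sol_restrict G hu hU hx h) hχ u
  rwa [if_pos (self_mem u)] at this

theorem recur (G : Good τ ν t) {z : ℂ} (hz : 0 < z.im) {R : V → V → ℂ}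
    (hR : ∀ x, τ.Sol ν t w (τ.desc x) z x 1 (R x)) (x : V) :
    R x x * (z - w x + ∑ u ∈ τ.ch x, t x u * t u x * R u u) = -1 := by
  have a := (hR x).2.2 x (self_mem x)
  unfold RTree.op at a
  have e1 : ∑ u ∈ τ.ch x, t x u * R x u = -(R x x * ∑ u ∈ τ.ch x, t x u * t u x * R u u) := by
    rw [Finset.mul_sum, ← Finset.sum_neg_distrib]
    refine Finset.sum_congr rfl fun u hu => ?_
    obtain ⟨a1, rfl⟩ := (τ.mem_ch _ _).1 hu
    rw [restrict_val G hz a1 (fun y hy => desc_par hy) (par_not_mem a1) (hR _) (hR u)]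
    ring
  have e2 : (if x = τ.root then 0 else t x (τ.par x) * R x (τ.par x)) = 0 := by
    split_ifs with hr
    · rfl
    · rw [(hR x).1 _ (par_not_mem hr), mul_zero]
  rw [e1, e2, if_pos rfl] at a
  linear_combination (-1 : ℂ) * a

theorem full_rec (G : Good τ ν t) {z : ℂ} (hz : 0 < z.im) {x : V} (hx : x ≠ τ.root) {χ φ ψ : V → ℂ}
    (hχ : τ.Sol ν t w (τ.desc x) z x 1 χ) (hφ : τ.Sol ν t w Set.univ z x 1 φ)
    (hψ : τ.Sol ν t w Set.univ z (τ.par x) 1 ψ) :
    φ x = χ x + t (τ.par x) x * t x (τ.par x) * χ x ^ 2 * ψ (τ.par x) := by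
  have h1 := restrict_val G hz hx (Set.subset_univ _) (par_not_mem hx) hψ hχ
  have h2 : τ.Sol ν t w Set.univ z (τ.par x) (t (τ.par x) x * χ x) (fun u => χ u - 1 * φ u) := by
    refine ⟨fun y hy => absurd (Set.mem_univ y) hy, summ_comb G 1 hχ.2.1 hφ.2.1, fun y _ => ?_⟩
    rw [op_comb]
    have a := hφ.2.2 y (Set.mem_univ y)
    by_cases hy : y ∈ τ.desc x
    · have b := hχ.2.2 y hy
      have : y ≠ τ.par x := fun e => par_not_mem hx (e ▸ hy)
      rw [if_neg this]
      linear_combination b - a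
    · have hyx : y ≠ x := fun e => hy (by rw [e]; exact self_mem x)
      rw [if_neg hyx] at a
      have b : τ.op t w χ y = if y = τ.par x then t (τ.par x) x * χ x else 0 := by
        unfold RTree.op
        have c1 : χ (τ.par y) = 0 := hχ.1 _ fun ⟨n, hn⟩ => hy ⟨n + 1, hn⟩
        have c2 : ∀ u ∈ τ.ch y, u ≠ x → t y u * χ u = 0 := fun u hu hux => by
          rw [hχ.1 u fun hm => hy (((τ.mem_ch _ _).1 hu).2 ▸ par_mem hm hux), mul_zero]
        rw [c1, hχ.1 y hy]
        simp only [mul_zero, ite_self, add_zero]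
        split_ifs with hp
        · subst hp
          exact Finset.sum_eq_single_of_mem x ((τ.mem_ch _ _).2 ⟨hx, rfl⟩) c2
        · exact Finset.sum_eq_zero fun u hu => c2 u hu fun e => hp (e ▸ ((τ.mem_ch _ _).1 hu).2.symm)
      rw [← b]
      have b' := hχ.1 y hy
      linear_combination (-1 : ℂ) * a - z * b'
  have h3 := sol_smul G hz h2 hψ x
  rw [h1] at h3
  linear_combination (-1 : ℂ) * h3

theorem root_val (G : Good τ ν t) {z : ℂ} (hz : 0 < z.im) {χ φ : V → ℂ}
    (hχ : τ.Sol ν t w (τ.desc τ.root) z τ.root 1 χ) (hφ : τ.Sol ν t w Set.univ z τ.root 1 φ) :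
    φ τ.root = χ τ.root := by
  have : τ.desc τ.root = Set.univ := Set.eq_univ_of_forall fun y => τ.reach y
  rw [this] at hχ
  rw [sol_smul G hz hφ hχ, one_mul]

end Pool.Agent.H.MP_ae9099_mp
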