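import Pool.Agent.H.MP_ae9099_mp.A
import Pool.Agent.H.MP_ae9099_mp.B

namespace Pool.Agent.H.MP_ae9099_mp

open Finset Filter Topology ComplexConjugate

variable {A : Type} [Fintype A] [DecidableEq A] {V : Type} [DecidableEq V]

noncomputable def kid (s : Finset V) (a : V → A) (m : A → ℕ) (h : ∀ l, (s.filter (fun u => a u = l)).card = m l)
    (σ : Σ l, Fin (m l)) : V := ((Finset.equivFinOfCardEq (h σ.1)).symm σ.2).1

theorem kid_lab (s : Finset V) (a : V → A) (m : A → ℕ) (h) (σ) : a (kid s a m h σ) = σ.1 :=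
  (Finset.mem_filter.1 ((Finset.equivFinOfCardEq (h σ.1)).symm σ.2).2).2

theorem kid_sum {β : Type} [AddCommMonoid β] (s : Finset V) (a : V → A) (m : A → ℕ) (h) (F : V → β) :
    ∑ u ∈ s, F u = ∑ σ, F (kid s a m h σ) := by
  rw [← Finset.sum_fiberwise s a F, Fintype.sum_sigma]
  refine Finset.sum_congr rfl fun l _ => ?_
  rw [← Finset.sum_coe_sort]
  exact (Equiv.sum_comp (Finset.equivFinOfCardEq (h l)).symm (fun u => F u.1)).symm

theorem im_of_rec {g W : ℂ} (h : g * W = -1) : g.im = ‖g‖ ^ 2 * W.im := by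
  have : ((‖g‖ ^ 2 : ℝ) : ℂ) * W = -conj g := by
    rw [← Complex.normSq_eq_norm_sq, Complex.normSq_eq_conj_mul_self, mul_assoc, h]; ring
  have h2 := congrArg Complex.im this
  rw [Complex.im_ofReal_mul] at h2
  simp only [Complex.neg_im, Complex.conj_im, neg_neg] at h2
  exact h2.symm

theorem label_inv (ch : V → Finset V) (a : V → A) (M : A → A → ℕ)
    (hc : ∀ x l, ((ch x).filter (fun u => a u = l)).card = M (a x) l)
    (κ : A → A → ℝ) (hκ : ∀ j k, 0 ≤ κ j k) (b : A → ℝ) (z : ℂ) (hz : 0 < z.im) (Γ : V → ℂ)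
    (hrec : ∀ x, Γ x * (z - b (a x) + ∑ u ∈ ch x, (κ (a x) (a u) : ℂ) * Γ u) = -1)
    (him : ∀ x, z.im * ‖Γ x‖ ^ 2 ≤ (Γ x).im) (x x' : V) (hx : a x = a x') : Γ x = Γ x' := by
  have hne : ∀ x, 0 < ‖Γ x‖ := fun x => norm_pos_iff.2 fun h0 => by
    have := hrec x
    rw [h0] at this
    simp at this
  have hvle : ∀ x, (Γ x).im ≤ ‖Γ x‖ := fun x => (le_abs_self _).trans (Complex.abs_im_le_norm _)
  have hub : ∀ x, ‖Γ x‖ ≤ (z.im)⁻¹ := fun x => by
    rw [← one_div, le_div_iff₀ hz]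
    have := (him x).trans (hvle x)
    have h2 := hne x
    nlinarith
  have hvp : ∀ x, 0 < (Γ x).im := fun x => lt_of_lt_of_le (mul_pos hz (pow_pos (hne x) 2)) (him x)
  obtain ⟨B, hBz, hB⟩ : ∃ B : ℝ, z.im ≤ B ∧ ∀ x, ‖z - b (a x) + ∑ u ∈ ch x, (κ (a x) (a u) : ℂ) * Γ u‖ ≤ B := by
    set f : A → ℝ := fun j => |b j| + ∑ σ : (Σ l, Fin (M j l)), κ j σ.1 * (z.im)⁻¹ with hf
    have hf0 : ∀ j, 0 ≤ f j := fun j => add_nonneg (abs_nonneg _)
      (Finset.sum_nonneg fun σ _ => mul_nonneg (hκ _ _) (inv_pos.2 hz).le)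
    refine ⟨‖z‖ + ∑ j, f j, ?_, fun x => ?_⟩
    · have := (le_abs_self _).trans (Complex.abs_im_le_norm z)
      have h2 := Finset.sum_nonneg (s := univ) fun j _ => hf0 j
      linarith
    · have h1 := Finset.single_le_sum (f := f) (fun j _ => hf0 j) (mem_univ (a x))
      have h2 : ‖∑ u ∈ ch x, (κ (a x) (a u) : ℂ) * Γ u‖ ≤ ∑ σ : (Σ l, Fin (M (a x) l)), κ (a x) σ.1 * (z.im)⁻¹ := by
        rw [kid_sum (ch x) a (M (a x)) (hc x)]
        refine (norm_sum_le _ _).trans (Finset.sum_le_sum fun σ _ => ?_)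
        rw [kid_lab _ a, norm_mul, Complex.norm_real, Real.norm_of_nonneg (hκ _ _)]
        exact mul_le_mul_of_nonneg_left (hub _) (hκ _ _)
      have h3 := norm_add_le (z - b (a x)) (∑ u ∈ ch x, (κ (a x) (a u) : ℂ) * Γ u)
      have h4 := norm_sub_le z (b (a x))
      rw [Complex.norm_real, Real.norm_eq_abs] at h4
      simp only [hf] at h1 ⊢
      linarith
  have hBp : 0 < B := lt_of_lt_of_le hz hBz
  have hlb : ∀ x, B⁻¹ ≤ ‖Γ x‖ := fun x => by
    have := congrArg norm (hrec x)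
    rw [norm_mul, norm_neg, norm_one] at this
    rw [← one_div, div_le_iff₀ hBp, ← this]
    exact mul_le_mul_of_nonneg_left (hB x) (norm_nonneg _)
  set q := 1 - z.im * B⁻¹ with hq
  have hq0 : 0 ≤ q := by
    have : z.im * B⁻¹ ≤ 1 := by rw [← div_eq_mul_inv, div_le_one hBp]; exact hBz
    linarith
  have hq1 : q < 1 := by have := mul_pos hz (inv_pos.2 hBp); linarith
  have hsum : ∀ x, ‖Γ x‖ ^ 2 * ∑ u ∈ ch x, κ (a x) (a u) * (Γ u).im ≤ q * (Γ x).im := fun x => by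
    have h1 := im_of_rec (hrec x)
    simp only [Complex.add_im, Complex.sub_im, Complex.ofReal_im, Complex.im_sum, Complex.im_ofReal_mul,
      sub_zero] at h1
    have h2 : B⁻¹ * (Γ x).im ≤ ‖Γ x‖ ^ 2 := by
      rw [sq]; exact mul_le_mul (hlb x) (hvle x) (hvp x).le (norm_nonneg _)
    have h3 := mul_le_mul_of_nonneg_left h2 hz.le
    rw [hq]
    nlinarith
  set δ := z.im * B⁻¹ ^ 2 with hδ
  have hδp : 0 < δ := mul_pos hz (pow_pos (inv_pos.2 hBp) 2)
  have hδv : ∀ x, δ ≤ (Γ x).im := fun x =>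
    le_trans (mul_le_mul_of_nonneg_left (pow_le_pow_left₀ (inv_pos.2 hBp).le (hlb x) 2) hz.le) (him x)
  set C := 2 * (z.im)⁻¹ / δ with hC
  have hCp : 0 < C := div_pos (mul_pos two_pos (inv_pos.2 hz)) hδp
  have key : ∀ n : ℕ, ∀ x x', a x = a x' → ‖Γ x - Γ x'‖ ≤ C * q ^ n * √((Γ x).im * (Γ x').im) := by
    intro n
    induction n with
    | zero =>
      intro x x' _
      have h1 : δ ≤ √((Γ x).im * (Γ x').im) := by
        refine Real.le_sqrt_of_sq_le ?_
        rw [sq]; exact mul_le_mul (hδv x) (hδv x') hδp.le (hvp x).le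
      have h2 := norm_sub_le (Γ x) (Γ x')
      have h3 : C * δ = 2 * (z.im)⁻¹ := by rw [hC]; field_simp
      have h4 := mul_le_mul_of_nonneg_left h1 hCp.le
      rw [pow_zero, mul_one]
      linarith [hub x, hub x']
    | succ n ih =>
      intro x x' hx
      have hc' : ∀ l, ((ch x').filter (fun u => a u = l)).card = M (a x) l := fun l => by rw [hx]; exact hc x' l
      obtain ⟨t, ht, t1, t2⟩ := tfacts _ _ (hvp x) (hvp x')
      have a1 := hrec x
      have a2 := hrec x'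
      have s1 := hsum x
      have s2 := hsum x'
      rw [← hx] at a2 s2
      rw [kid_sum (ch x) a (M (a x)) (hc x)] at a1 s1
      rw [kid_sum (ch x') a (M (a x)) hc'] at a2 s2
      simp only [kid_lab] at a1 a2 s1 s2
      have e1 : Γ x - Γ x' = ∑ σ, Γ x * Γ x' * ((κ (a x) σ.1 : ℂ) *
          (Γ (kid (ch x) a (M (a x)) (hc x) σ) - Γ (kid (ch x') a (M (a x)) hc' σ))) := by
        rw [← Finset.mul_sum]
        simp only [mul_sub, Finset.sum_sub_distrib]
        linear_combination (-(Γ x')) * a1 + Γ x * a2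
      have hCn : 0 ≤ C * q ^ n := mul_nonneg hCp.le (pow_nonneg hq0 n)
      have e2 : ‖Γ x - Γ x'‖ ≤ ∑ σ : (Σ l, Fin (M (a x) l)),
          ((C * q ^ n / 2 * t * ‖Γ x‖ ^ 2) * (κ (a x) σ.1 * (Γ (kid (ch x) a (M (a x)) (hc x) σ)).im) +
          (C * q ^ n / 2 * t⁻¹ * ‖Γ x'‖ ^ 2) * (κ (a x) σ.1 * (Γ (kid (ch x') a (M (a x)) hc' σ)).im)) := by
        rw [e1]
        refine (norm_sum_le _ _).trans (Finset.sum_le_sum fun σ _ => ?_)
        rw [norm_mul, norm_mul, norm_mul, Complex.norm_real, Real.norm_of_nonneg (hκ _ _)]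
        have := amgm ‖Γ x‖ ‖Γ x'‖ _ _ _ _ t (norm_nonneg _) (norm_nonneg _) hCn (hvp _).le (hvp _).le ht
          (ih (kid (ch x) a (M (a x)) (hc x) σ) (kid (ch x') a (M (a x)) hc' σ) (by rw [kid_lab _ a, kid_lab _ a]))
        have h2 := mul_le_mul_of_nonneg_left this (hκ (a x) σ.1)
        linarith
      rw [Finset.sum_add_distrib, ← Finset.mul_sum, ← Finset.mul_sum] at e2
      have e3 := mul_le_mul_of_nonneg_left s1 (mul_nonneg hCn ht.le)
      have e4 := mul_le_mul_of_nonneg_left s2 (mul_nonneg hCn (inv_pos.2 ht).le)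
      have e5 : C * q ^ (n + 1) * √((Γ x).im * (Γ x').im) =
          C * q ^ n * q / 2 * (t * (Γ x).im) + C * q ^ n * q / 2 * (t⁻¹ * (Γ x').im) := by
        rw [t1, t2]; ring
      rw [e5]
      linarith
  have hlim : Tendsto (fun n : ℕ => C * q ^ n * √((Γ x).im * (Γ x').im)) atTop (𝓝 0) := by
    simpa using ((tendsto_pow_atTop_nhds_zero_of_lt_one hq0 hq1).const_mul C).mul_const √((Γ x).im * (Γ x').im)
  exact sub_eq_zero.1 (norm_le_zero_iff.1 (ge_of_tendsto' hlim fun n => key n x x' hx))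

theorem adm_of (ch : V → Finset V) (a : V → A) (M : A → A → ℕ)
    (hc : ∀ x l, ((ch x).filter (fun u => a u = l)).card = M (a x) l)
    (κ : A → A → ℝ) (hκ : ∀ j k, 0 ≤ κ j k) (b : A → ℝ) (z : ℂ) (hz : 0 < z.im) (Γ : V → ℂ)
    (hrec : ∀ x, Γ x * (z - b (a x) + ∑ u ∈ ch x, (κ (a x) (a u) : ℂ) * Γ u) = -1)
    (him : ∀ x, z.im * ‖Γ x‖ ^ 2 ≤ (Γ x).im) (ρ : A → V) (hρ : ∀ j, a (ρ j) = j) [Nonempty A] :
    ∃ v, Adm (fun j k => M j k * κ j k) b z (fun j => Γ (ρ j)) v := by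
  have hinv : ∀ x, Γ x = Γ (ρ (a x)) := fun x => label_inv ch a M hc κ hκ b z hz Γ hrec him _ _ (hρ _).symm
  have hne : ∀ x, 0 < ‖Γ x‖ := fun x => norm_pos_iff.2 fun h0 => by
    have := hrec x
    rw [h0] at this
    simp at this
  have hvp : ∀ x, 0 < (Γ x).im := fun x => lt_of_lt_of_le (mul_pos hz (pow_pos (hne x) 2)) (him x)
  have hr : ∀ j, Γ (ρ j) * (z - b j + ∑ k, ((M j k * κ j k : ℝ) : ℂ) * Γ (ρ k)) = -1 := fun j => by
    have := hrec (ρ j)
    have hc' : ∀ l, ((ch (ρ j)).filter (fun u => a u = l)).card = M j l := fun l => by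
      rw [hc, hρ]
    rw [kid_sum (ch (ρ j)) a (M j) hc', hρ] at this
    rw [← this, Fintype.sum_sigma]
    congr 2
    refine Finset.sum_congr rfl fun l _ => ?_
    have e : ∀ i : Fin (M j l), (κ j (a (kid (ch (ρ j)) a (M j) hc' ⟨l, i⟩)) : ℂ) * Γ (kid (ch (ρ j)) a (M j) hc' ⟨l, i⟩)
        = κ j l * Γ (ρ l) := fun i => by rw [hinv, kid_lab _ a]
    simp only [e, Finset.sum_const, Finset.card_univ, Fintype.card_fin, nsmul_eq_mul]
    push_cast; ring
  have hS : 0 < ∑ j, (Γ (ρ j)).im := Finset.sum_pos (fun j _ => hvp _) univ_nonempty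
  refine ⟨fun j => (∑ j, (Γ (ρ j)).im)⁻¹ * (Γ (ρ j)).im, fun j => (hvp _).le, hr,
    fun j => (mul_pos (inv_pos.2 hS) (hvp _)).le, by rw [← Finset.mul_sum]; exact inv_mul_cancel₀ hS.ne', fun j => ?_⟩
  have h1 := im_of_rec (hr j)
  simp only [Complex.add_im, Complex.sub_im, Complex.ofReal_im, Complex.im_sum, Complex.im_ofReal_mul,
    sub_zero] at h1
  have e : ∀ k, (M j k * κ j k) * ((∑ j, (Γ (ρ j)).im)⁻¹ * (Γ (ρ k)).im) =
    (∑ j, (Γ (ρ j)).im)⁻¹ * ((M j k * κ j k) * (Γ (ρ k)).im) := fun k => by ring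
  simp only [e, ← Finset.mul_sum]
  have h2 : ‖Γ (ρ j)‖ ^ 2 * ∑ k, (M j k * κ j k) * (Γ (ρ k)).im ≤ (Γ (ρ j)).im := by
    have := mul_pos (pow_pos (hne (ρ j)) 2) hz
    linarith
  have h3 := mul_le_mul_of_nonneg_left h2 (inv_pos.2 hS).le
  linarith

theorem irr_of_prim (M : Matrix A A ℕ) (n : ℕ) : ∀ j k, 0 < (M ^ n) j k →
    Relation.ReflTransGen (fun j k => 0 < M j k) j k := by
  induction n with
  | zero =>
    intro j k h
    rw [pow_zero, Matrix.one_apply] at h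
    split_ifs at h with e
    · subst e; exact Relation.ReflTransGen.refl
    · exact absurd h (lt_irrefl 0)
  | succ n ih =>
    intro j k h
    rw [pow_succ, Matrix.mul_apply] at h
    obtain ⟨l, -, hl⟩ := Finset.exists_ne_zero_of_sum_ne_zero h.ne'
    exact (ih j l (Nat.pos_of_ne_zero (left_ne_zero_of_mul hl))).tail (Nat.pos_of_ne_zero (right_ne_zero_of_mul hl))

theorem bdry {F G : ℂ → ℂ} (hF : ContinuousOn F {z | 0 ≤ z.im}) (hG : ∀ z, 0 < z.im → F z = G z) :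
    ∃ f : ℝ → ℂ, Continuous f ∧
      ∀ E : ℝ, Tendsto (fun η : ℝ => G (E + η * Complex.I)) (𝓝[>] 0) (𝓝 (f E)) := by
  refine ⟨fun E => F E, hF.comp_continuous Complex.continuous_ofReal fun E => by simp, fun E => ?_⟩
  have h1 : Tendsto (fun η : ℝ => (E : ℂ) + η * Complex.I) (𝓝[>] 0) (𝓝[{z | 0 ≤ z.im}] (E : ℂ)) := by
    refine tendsto_nhdsWithin_iff.2 ⟨?_, ?_⟩
    · have : Continuous fun η : ℝ => (E : ℂ) + η * Complex.I := by fun_prop
      simpa using (this.tendsto 0).mono_left nhdsWithin_le_nhds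
    · filter_upwards [self_mem_nhdsWithin] with η hη
      simpa using le_of_lt hη
  refine ((hF E (by simp)).tendsto.comp h1).congr' ?_
  filter_upwards [self_mem_nhdsWithin] with η hη
  exact hG _ (by simpa using hη)

end Pool.Agent.H.MP_ae9099_mp
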